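import Pool.Agent.Run7.h794.RF.Mu
import Pool.Agent.N384.MQ.Ex
import Pool.Agent.N384.MQ.Quot

/-!
# The von Mangoldt function and the Liouville function with shifts from families of residues with small Fourier coefficients

From Mathlib: `ArithmeticFunction.vonMangoldt`: the function `Λ`; `ArithmeticFunction.cardFactors`: the number `Ω` of the prime
factors with multiplicity; `ZMod.stdAddChar`: the additive character `j ↦ exp (2 π i j / M)` of the integers modulo `M`;
`ZMod.val`: the least residue; `Fintype.piFinset S`: the vectors `m` with `m i ∈ S i` for all `i`.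

The passage from exponential sums to correlations is from the starting files (`Pool.Agent.N625.PT.t_corr`).

Method: a family of residues modulo `M` with small Fourier coefficients has small exponential sums at all real
frequencies which are not close to integers, its least residues are not concentrated on short intervals, and the large
spectrum of all their multiples is thin (library `Pool.Agent.N384.MQ`). The fixed exponent `V` comes from a compactness
argument. Examples: a lemma of Ajtai, Iwaniec, Komlos, Pintz and Szemeredi on quotients by small primes, the Stepanov type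
lemma of Heath-Brown and Konyagin for subgroups (library `H435R3.HBK`, `N825.FC`), and Weyl sums without losses (library
`H373R2.NB`).
-/

set_option autoImplicit false

namespace Pool.Agent.Results.MP_e6fa8b_nt.ResidueFamilies

open Finset

/-- The Fourier coefficients of the residues `y i`, `i ∈ s`, modulo `q` at the nonzero frequencies are at most
`η` times the number of the residues: `|∑ i ∈ s, e(h y_i / q)| ≤ η |s|` for all `h ≠ 0` modulo `q`. -/
def Flat {ι : Type} (q : ℕ) [NeZero q] (η : ℝ) (s : Finset ι) (y : ι → ZMod q) : Prop :=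
  ∀ h : ZMod q, h ≠ 0 → ‖∑ i ∈ s, (ZMod.stdAddChar (h * y i) : ℂ)‖ ≤ η * s.card

/-- Liouville's function on the integers, `0` at the integers `m ≤ 0`. -/
def lam (m : ℤ) : ℤ := if 1 ≤ m then (-1) ^ ArithmeticFunction.cardFactors m.toNat else 0

open Classical in
/-- **(1)** Let `s ≥ 1`, `r`, `κ i ≠ 0` (`i < s`), `B`, `A`, `J`, `W`, `U` and `a` be fixed. There is a number `V` such
that the following holds for all large integers `N`. Let `y i`, `i < s`, be finite families (`y i j`, `j ∈ S i`) of residues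
modulo integers `M i` with `N / log ^ a N ≤ M i ≤ N` whose Fourier coefficients at the nonzero frequencies are at most
`|S i| / log ^ V (M i)`, and let `|c i| ≤ N`. For each of at most `log ^ A N` indices `l` let `α l ≥ 1`, let
`e l j * n + d l j` (`j < r`) be arbitrary linear forms with nonnegative coefficients `≤ N ^ B` and let `g l` be an arbitrary
function with `|g l| ≤ 1`. All the vectors `m` of members `m i ∈ S i` of the families, up to a proportion of at most
`1 / log ^ U N`, have the following property for ALL the integers `q i` at a distance of at most `log ^ W N` from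
`c i + κ i * y i (m i)`, ALL the factors `1 ≤ h i ≤ log ^ J N`, all `l`, all nonempty sets `I` of indices and all
`X ≤ N log ^ A N / α l`:
`|∑ n ≤ X, g l n * (∏ j, Λ(e l j * n + d l j)) * ∏ i ∈ I, λ(α l * n + h i * q i)| ≤ N / log ^ U N`.

**(2)**, **(3)** Examples. The condition of (1) holds modulo all large primes `p` for:
* the quotients `j / r` of the integers `0 ≤ j < S` by the primes `r ≤ R`, if `log ^ (V + 4) p ≤ R < p` and `R ^ 2 ≤ S`; thus
  there are such explicit sets with only `log ^ (3 V + 12) p` members;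
* the cosets of all subgroups of the multiplicative group of an order of at least `p ^ (3/8) log ^ (3 V + 1) p`;
* the residues `a b + g(a) + k(b)`, `a ∈ A`, `b ∈ B`, for arbitrary sets with `|A| |B| ≥ p log ^ (2 V) p` and arbitrary
  functions `g` and `k`;
* the values `f(n)`, `0 ≤ n < x`, of all integer polynomials of degree `d` whose leading coefficient is not divisible by
  `p`, if `x ^ d ≥ p log ^ C p`, where `C` depends on `d` and `V`. -/
theorem result :
    (∀ s r : ℕ, 1 ≤ s → ∀ κ : Fin s → ℤ, (∀ i, κ i ≠ 0) → ∀ (B A J W U a : ℕ), ∃ V N₀ : ℕ, ∀ N : ℕ, N₀ ≤ N →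
      ∀ (M : Fin s → ℕ) [∀ i, NeZero (M i)], (∀ i, M i ≤ N) → (∀ i, (N : ℝ) ≤ M i * Real.log N ^ a) →
      ∀ (ι : Fin s → Type) (S : ∀ i, Finset (ι i)) (y : ∀ i, ι i → ZMod (M i)),
      (∀ i, Flat (M i) (1 / Real.log (M i) ^ V) (S i) (y i)) → ∀ c : Fin s → ℤ, (∀ i, |c i| ≤ N) →
      ∀ L : ℕ, (L : ℝ) ≤ Real.log N ^ A → ∀ (α : Fin L → ℕ) (e d : Fin L → Fin r → ℕ) (g : Fin L → ℕ → ℂ), (∀ l, 1 ≤ α l) →
      (∀ l j, e l j ≤ N ^ B ∧ d l j ≤ N ^ B) → (∀ l n, ‖g l n‖ ≤ 1) →
      (((Fintype.piFinset S).filter fun m => ¬ ∀ q : Fin s → ℤ,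
        (∀ i, |(q i : ℝ) - (c i + κ i * ((y i (m i)).val : ℕ))| ≤ Real.log N ^ W) →
        ∀ h : Fin s → ℕ, (∀ i, 1 ≤ h i ∧ (h i : ℝ) ≤ Real.log N ^ J) → ∀ l, ∀ I : Finset (Fin s), I.Nonempty →
        ∀ X : ℕ, (α l * X : ℝ) ≤ N * Real.log N ^ A →
        ‖∑ n ∈ Icc 1 X, g l n * (∏ j, (ArithmeticFunction.vonMangoldt (e l j * n + d l j) : ℂ)) *
          ∏ i ∈ I, (lam (α l * n + h i * q i) : ℂ)‖ ≤ N / Real.log N ^ U).card : ℝ) ≤
        (∏ i, ((S i).card : ℝ)) / Real.log N ^ U) ∧
    (∀ V : ℕ, ∃ P₀ : ℕ, ∀ p : ℕ, P₀ ≤ p → ∀ [Fact p.Prime],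
      (∀ R S : ℕ, Real.log p ^ (V + 4) ≤ R → R < p → R ^ 2 ≤ S →
        Flat p (1 / Real.log p ^ V) (((Icc 1 R).filter Nat.Prime) ×ˢ range S)
          (fun z => ((z.2 : ℕ) : ZMod p) * ((z.1 : ℕ) : ZMod p)⁻¹)) ∧
      (∀ (H : Subgroup (ZMod p)ˣ) (s : Finset (ZMod p)ˣ), (∀ u, u ∈ s ↔ u ∈ H) →
        (p : ℝ) ^ (3 / 8 : ℝ) * Real.log p ^ (3 * V + 1) ≤ s.card → ∀ x : ZMod p, x ≠ 0 →
        Flat p (1 / Real.log p ^ V) s (fun u => x * (u : ZMod p))) ∧
      (∀ (A B : Finset (ZMod p)) (g k : ZMod p → ZMod p), (p : ℝ) * Real.log p ^ (2 * V) ≤ A.card * B.card →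
        Flat p (1 / Real.log p ^ V) (A ×ˢ B) (fun z => z.1 * z.2 + g z.1 + k z.2))) ∧
    (∀ d V : ℕ, 1 ≤ d → ∃ C P₀ : ℕ, ∀ p : ℕ, P₀ ≤ p → ∀ [Fact p.Prime] (f : Polynomial ℤ), f.natDegree = d →
      ¬ (p : ℤ) ∣ f.leadingCoeff → ∀ x : ℕ, (p : ℝ) * Real.log p ^ C ≤ (x : ℝ) ^ d →
      Flat p (1 / Real.log p ^ V) (range x) (fun n => ((f.eval (n : ℤ) : ℤ) : ZMod p))) := by
  refine ⟨fun s r hs κ hκ B A J W U a => ?_, fun V => ?_, fun d V hd => ?_⟩
  · obtain ⟨V, N₀, h⟩ := Pool.Agent.Run7.h794.RF.mq_multi s r hs κ hκ (fun _ => Pool.Agent.Y885.laR)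
      (fun _ => Pool.Agent.Y885.fine_lam) B A J W U a
    refine ⟨V, N₀, fun N hN M _ hM1 hM2 ι S y hf c hc L hL α e d g hα hed hg => ?_⟩
    refine le_trans (Nat.cast_le.2 (card_le_card fun m hm => ?_)) (h N hN M hM1 hM2 ι S y hf c hc L hL α e d g hα hed hg)
    rw [mem_filter] at hm ⊢
    refine ⟨hm.1, fun hcon => hm.2 ?_⟩
    have hlam : ∀ m : ℤ, (lam m : ℂ) = Pool.Agent.H373R2.T7.exI (fun n => ((Pool.Agent.Y885.laR n : ℝ) : ℂ)) m := by
      intro m
      unfold lam Pool.Agent.H373R2.T7.exI Pool.Agent.Y885.laR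
      split_ifs <;> simp
    intro q hq h' hh l I hI X hX
    simp only [hlam]
    exact hcon q hq h' hh l I hI X hX
  · obtain ⟨P₁, h1⟩ := Pool.Agent.N384.MQ.flat_quot V
    obtain ⟨P₂, h2⟩ := Pool.Agent.N384.MQ.flat_coset V
    obtain ⟨P₃, h3⟩ := Pool.Agent.N384.MQ.flat_prod V
    exact ⟨P₁ + P₂ + P₃, fun p hp _ => ⟨fun R S => h1 p (by omega) R S, fun H s => h2 p (by omega) H s,
      fun A B g k => h3 p (by omega) A B g k⟩⟩
  · exact Pool.Agent.N384.MQ.flat_poly d V hd

end Pool.Agent.Results.MP_e6fa8b_nt.ResidueFamilies
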